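import Pool.Agent.Helper19.DP1.WFinal

/-!
The average number of lines on a del Pezzo surface of degree 1 over a finite field of odd order.
-/

namespace Pool.Agent.Results.MP_a9e003_ag.LinesDP1

open Pool.Agent.Helper19

/-- `A_1(q) = 1 - 1/q + (q-1)^2 (q^2-2q+7) / q^8` for all odd `q`. -/
theorem result (K : Type*) [Field K] [Fintype K] (hq : Odd (Fintype.card K)) :
    DP1W.A1 K = 1 - 1 / (Fintype.card K : ℚ) +
      ((Fintype.card K : ℚ) - 1) ^ 2 * ((Fintype.card K : ℚ) ^ 2 - 2 * (Fintype.card K : ℚ) + 7) /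
        (Fintype.card K : ℚ) ^ 8 :=
  DP1W.A1_formula (DP1.two_ne_of_odd hq)

end Pool.Agent.Results.MP_a9e003_ag.LinesDP1
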